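import Pool.Agent.H2.Core.Comp

/-!
# No maximal component of the core of a domain is a point

Definitions used (all in `Pool.Agent.H2.Core`):

* `levi g x v` is the Levi form of `g : ℂⁿ → ℝ` at `x` in the direction `v`, a quarter of
  `D²g(x)(v, v) + D²g(x)(iv, iv)`;
* `MemF Ω φ`: the function `φ` on the complex manifold `M` is, in all charts of the atlas, smooth on
  `Ω` with nonnegative Levi form, and it is bounded from above on `Ω`;
* `StrictAt φ z`: the Levi form of `φ` at `z` is positive definite;
* `core n Ω`: the points of `Ω` at which no function of `𝓕(Ω)` is strictly plurisubharmonic;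
* `IsMaximalComponent n Ω l`: `l` is nonempty and maximal among the subsets of the core on which all
  functions of `𝓕(Ω)` are constant.
-/

set_option autoImplicit false

open Filter Topology Set Metric
open scoped ContDiff Manifold

namespace Pool.Agent.Results.MP_425ff5_an.NoPointComponents

open Pool.Agent.H2.Core

/-- Let `Ω` be an open set in a complex manifold `M` of dimension `n` and `l` a maximal component of
the core of `Ω`. Then

* `l` has at least two points, and no point of `l` is isolated in `l`;
* `l` is closed in `Ω`;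
* `l` has the local maximum property: if `W` is relatively compact in the part `V` of a chart lying in
  `Ω`, `g` is smooth and plurisubharmonic on `V`, and the point `z` of `l` is in `W`, then there is a
  point of `l` on the boundary of `W` where `g` is at least `g(z)`;
* if `M` carries a smooth strictly plurisubharmonic function (for instance if `M` is Stein), then `l`
  is not compact. -/
theorem result {n : ℕ} {M : Type*} [TopologicalSpace M] [T2Space M]
    [ChartedSpace (EuclideanSpace ℂ (Fin n)) M]
    [IsManifold 𝓘(ℂ, EuclideanSpace ℂ (Fin n)) ω M] {Ω l : Set M} (hΩ : IsOpen Ω)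
    (hl : IsMaximalComponent n Ω l) :
    l.Nontrivial ∧ (∀ z ∈ l, AccPt z (𝓟 l)) ∧ l = closure l ∩ Ω ∧
    (∀ e ∈ atlas (EuclideanSpace ℂ (Fin n)) M, ∀ V W : Set (EuclideanSpace ℂ (Fin n)),
      IsOpen V → V ⊆ e.target ∩ e.symm ⁻¹' Ω → IsOpen W → IsCompact (closure W) → closure W ⊆ V →
      ∀ g : EuclideanSpace ℂ (Fin n) → ℝ, ContDiffOn ℝ ∞ g V → (∀ x ∈ V, ∀ v, 0 ≤ levi g x v) →
      ∀ z ∈ l, z ∈ e.source → e z ∈ W →
        ∃ w ∈ l, w ∈ e.source ∧ e w ∈ frontier W ∧ g (e z) ≤ g (e w)) ∧
    ((∃ s : M → ℝ, (∀ e ∈ atlas (EuclideanSpace ℂ (Fin n)) M,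
        ContDiffOn ℝ ∞ (fun x => s (e.symm x)) e.target) ∧ ∀ z, StrictAt (n := n) s z) →
      ¬ IsCompact l) := by
  have hacc : ∀ z ∈ l, AccPt z (𝓟 l) := fun z hz => comp_acc hΩ hl hz
  refine ⟨?_, hacc, ?_, ?_, ?_⟩
  · obtain ⟨z, hz⟩ := hl.1
    have h1 := hacc z hz
    rw [accPt_iff_nhds] at h1
    obtain ⟨w, hw, hne⟩ := h1 univ univ_mem
    exact ⟨w, hw.2, z, hz, hne⟩
  · apply Subset.antisymm
    · exact fun z hz => ⟨subset_closure hz, (hl.2.1.1 hz).1⟩
    · rintro z ⟨hz, hzΩ⟩
      by_contra hzl
      have h1 := comp_closed hΩ hl hzΩ hzl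
      rw [mem_closure_iff_frequently] at hz
      exact hz h1
  · intro e he V W hV hVe hW hK hKV g hg hgp z hz hze hzW
    exact comp_max hΩ hl he hV hVe hW hK hKV hg hgp hz hze hzW
  · rintro ⟨s, hs, hst⟩
    exact comp_not_compact hΩ hl hs hst

end Pool.Agent.Results.MP_425ff5_an.NoPointComponents
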